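import Mathlib
import Pool.Agent.H574R3.CS.Main
import Pool.Agent.H574R3.CS.S
import Pool.Agent.H927R2.CSA
import Pool.Agent.H750R3.CS.B
import Pool.Agent.H757.CS.C
import Pool.Agent.H574R3.CS.TaskD_helper853
import Pool.Agent.H791R3.CS.E
import Pool.Agent.H550R3.CS.F
import Pool.Agent.H354.CS.U
import Pool.Agent.H574R3.CS.T
import Pool.Agent.H574R3.CS.TAff
import Pool.Agent.H388R3.CS.TaskZ
import Pool.Agent.H278R3.CS.Odd1
import Pool.Agent.H256R3.CSOdd2
import Pool.Agent.H427R3.CS.Even0
import Pool.Agent.H793R3.CS.Even1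
import Pool.Agent.H574R3.CS.TaskTwo_helper894
import Pool.Agent.H269R3.CSN
import Pool.Agent.H992R3.CS.M
import Pool.Agent.H574R3.CS.Even2
import Pool.Agent.H620R3.CS.Even3
import Pool.Agent.H164R3.CS.L
import Pool.Agent.H468R3.CS.R
import Pool.Agent.H574R3.CS.TaskCA_helper894

/-! Every rational point of a smooth cubic surface over a finite field lies on a rational curve
defined over that field. -/

set_option autoImplicit false

namespace Pool.Agent.Results.MP_4f7796_ag.RationalCurves

open MvPolynomial

/-- The cubic form `F` in four variables over `K` defines a smooth surface `X : F = 0` in `P³`: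
at every geometric point of `X` some partial derivative of `F` does not vanish. -/
def SmoothSurface {K : Type} [Field K] (F : MvPolynomial (Fin 4) K) : Prop :=
  ∀ v : Fin 4 → AlgebraicClosure K, v ≠ 0 → aeval v F = 0 →
    ∃ i, aeval v (pderiv i F) ≠ 0

/-- A nonconstant morphism `P¹ → P³` defined over `K` with image in `F = 0`: four binary forms of
the same positive degree `n` over `K`, without common zero in `P¹` over an algebraic closure, which
satisfy `F(f₀, f₁, f₂, f₃) = 0`. -/
structure RationalCurve {K : Type} [Field K] (F : MvPolynomial (Fin 4) K) where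
  n : ℕ
  f : Fin 4 → MvPolynomial (Fin 2) K
  pos : 0 < n
  homogeneous : ∀ i, (f i).IsHomogeneous n
  base_point_free : ∀ u : Fin 2 → AlgebraicClosure K, u ≠ 0 → ∃ i, aeval u (f i) ≠ 0
  on_surface : aeval f F = 0

/-- The image of the morphism contains the point `[x]` of `P³(K)`: some geometric point `[u]` of
`P¹` is mapped to it. -/
def RationalCurve.Contains {K : Type} [Field K] {F : MvPolynomial (Fin 4) K}
    (φ : RationalCurve F) (x : Fin 4 → K) : Prop :=
  ∃ u : Fin 2 → AlgebraicClosure K, u ≠ 0 ∧ ∃ c : AlgebraicClosure K, c ≠ 0 ∧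
    ∀ i, aeval u (φ.f i) = c * algebraMap K (AlgebraicClosure K) (x i)

/-- For every finite field `K`, every smooth cubic surface over `K` and every `K`-rational point
`[x]` of it there is a rational curve on the surface, defined over `K`, that contains `[x]`. -/
theorem result (K : Type) [Field K] [Finite K] (F : MvPolynomial (Fin 4) K)
    (cubic : F.IsHomogeneous 3) (smooth : SmoothSurface F)
    (x : Fin 4 → K) (hx : x ≠ 0) (hF : aeval x F = 0) :
    ∃ φ : RationalCurve F, φ.Contains x := by
  classical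
  have : Fintype K := Fintype.ofFinite K
  obtain ⟨a, ha, hD⟩ := Pool.Agent.H992R3.CS.M.taskM K F cubic
  have hs : Pool.Agent.H574R3.CS.Smooth a := by
    intro v hv h0
    obtain ⟨i, hi⟩ := smooth v hv (by rw [ha]; exact h0)
    refine ⟨Pi.single i 1, ?_⟩
    rw [← hD, Finset.sum_eq_single i]
    · simpa using hi
    · intro j _ hj
      simp [hj]
    · simp
  have hc : Pool.Agent.H574R3.CS.cub a x = 0 := by rw [← ha]; exact hF
  have p : Pool.Agent.H574R3.CS.Pieces :=
    { A := Pool.Agent.H927R2.CSA.taskA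
      B := Pool.Agent.H750R3.CS.taskB
      C := Pool.Agent.H757.CS.taskC
      D := Pool.Agent.H574R3.CS.D853.taskD
      E := Pool.Agent.H791R3.CS.taskE
      F := Pool.Agent.H574R3.CS.taskF
      S := Pool.Agent.H574R3.CS.taskS
      U := Pool.Agent.H574R3.CS.taskU Pool.Agent.H574R3.CS.taskS
      V := Pool.Agent.H574R3.CS.taskV
      T1 := Pool.Agent.H574R3.CS.taskT1
      T2 := Pool.Agent.H574R3.CS.taskT2
      T3 := Pool.Agent.H574R3.CS.taskT3
      R := Pool.Agent.H468R3.CS.taskR
      Aff := Pool.Agent.H574R3.CS.taskAff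
      L := Pool.Agent.H164R3.CS.L.taskL
      CA := Pool.Agent.H574R3.CS.taskCA
      Z := Pool.Agent.H574R3.CS.taskZ
      Odd1 := Pool.Agent.H574R3.CS.taskOdd1
      Odd2 := Pool.Agent.H574R3.CS.taskOdd2
      Even0 := Pool.Agent.H574R3.CS.taskEven0
      Even1 := Pool.Agent.H574R3.CS.taskEven1
      Even2 := Pool.Agent.H574R3.CS.taskEven2
      Even3 := Pool.Agent.H574R3.CS.taskEven3
      Two := Pool.Agent.H574R3.CS.taskTwo }
  obtain ⟨n, f, h1, h2, h3, h4, h5⟩ := Pool.Agent.H574R3.CS.taskN K F a ha x hx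
    (Pool.Agent.H574R3.CS.main_curve p a hs x hx hc)
  exact ⟨⟨n, f, h1, h2, h3, h4⟩, h5⟩

end Pool.Agent.Results.MP_4f7796_ag.RationalCurves
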